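import Mathlib
set_option autoImplicit false
namespace Pool.Agent.Results.MP_b60f31_al.Yes

open Matrix

/-- Equations: `inl i` is `x_i = 1` and `inr (i, j, k)` is `x_i + x_j = x_k`. -/
abbrev Eqn (n : ℕ) := Fin n ⊕ Fin n × Fin n × Fin n

/-- The row of the coefficient matrix given by an equation. -/
def rowOf {n : ℕ} : Eqn n → Fin n → ℝ
  | .inl i => Pi.single i 1
  | .inr (i, j, k) => Pi.single i 1 + Pi.single j 1 - Pi.single k 1

/-- The right-hand side given by an equation. -/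
def rhsOf {n : ℕ} : Eqn n → ℝ
  | .inl _ => 1
  | .inr _ => 0

/-- The four Penrose equations: `P` is the Moore-Penrose pseudoinverse of `A`. -/
def IsPinv {m n : Type} [Fintype m] [Fintype n] (A : Matrix m n ℝ) (P : Matrix n m ℝ) : Prop :=
  A * P * A = A ∧ P * A * P = P ∧ (A * P)ᵀ = A * P ∧ (P * A)ᵀ = P * A

def Holds {n : ℕ} (x : Fin n → ℂ) : Fin n ⊕ Fin n × Fin n × Fin n → Prop
  | .inl i => x i = 1
  | .inr (i, j, k) => x i + x j = x k

def e {n : ℕ} (a : Option (Fin n)) (j : Fin n) : ℤ := if a = some j then 1 else 0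

/-- network vectors -/
def Net {n : ℕ} (v : Fin n → ℤ) : Prop := ∃ a b, v = e a - e b

lemma e_succ {n : ℕ} (a : Option (Fin (n + 1))) (j : Fin (n + 1)) :
    ∃ a', e a ∘ j.succAbove = e a' := by
  by_cases h : ∃ k, a = some (j.succAbove k)
  · obtain ⟨k, rfl⟩ := h
    exact ⟨some k, funext fun l => by simp [e]⟩
  · exact ⟨none, funext fun l => by simp [e, not_exists.1 h l]⟩

lemma net (n : ℕ) : ∀ A : Matrix (Fin n) (Fin n) ℤ, (∀ i, Net (A i)) → |A.det| ≤ 1 := by
  induction n with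
  | zero => simp
  | succ n ih =>
    intro A h
    have minor : ∀ i j : Fin (n + 1), |(A.submatrix i.succAbove j.succAbove).det| ≤ 1 := fun i j =>
      ih _ fun k => by
        obtain ⟨a, b, h⟩ := h (i.succAbove k)
        obtain ⟨a', ha⟩ := e_succ a j
        obtain ⟨b', hb⟩ := e_succ b j
        exact ⟨a', b', by rw [← ha, ← hb]; ext l; simp [h]⟩
    choose a b h using h
    by_cases k : ∃ i, a i = none ∨ b i = none
    · obtain ⟨i, k⟩ := k
      obtain ⟨c, hc⟩ : ∃ c, ∀ j, |A i j| = e c j := by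
        rcases k with k | k
        · exact ⟨b i, fun j => by simp [h, k, e]; split_ifs <;> simp⟩
        · exact ⟨a i, fun j => by simp [h, k, e]; split_ifs <;> simp⟩
      rw [det_succ_row A i]
      refine (Finset.abs_sum_le_sum_abs _ _).trans ((Finset.sum_le_sum (g := e c)
        fun j _ => ?_).trans ?_)
      · rw [abs_mul, abs_mul, abs_neg_one_pow, one_mul, ← hc]
        exact mul_le_of_le_one_right (abs_nonneg _) (minor i j)
      · cases c <;> simp [e]
    · have : A.det = 0 := exists_mulVec_eq_zero_iff.1 ⟨1, one_ne_zero, funext fun i => by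
        push Not at k
        obtain ⟨x, hx⟩ := Option.ne_none_iff_exists'.1 (k i).1
        obtain ⟨y, hy⟩ := Option.ne_none_iff_exists'.1 (k i).2
        simp [mulVec, dotProduct, h, hx, hy, e]⟩
      simp [this]

lemma two {n : ℕ} (s : Finset (Fin n)) : ∀ A : Matrix (Fin n) (Fin n) ℤ, (∀ i ∉ s, Net (A i)) →
    (∀ i ∈ s, ∃ u v, Net u ∧ Net v ∧ A i = u + v) → |A.det| ≤ 2 ^ s.card := by
  induction s using Finset.induction with
  | empty => exact fun A h _ => net n A fun i => h i (by simp)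
  | insert i s hi ih =>
    intro A h k
    obtain ⟨u, v, hu, hv, e⟩ := k i (by simp)
    have : ∀ u, Net u → |(A.updateRow i u).det| ≤ 2 ^ s.card := fun u hu => ih _
      (fun j hj => by
        by_cases e : j = i
        · simpa [e]
        · rw [updateRow_ne e]; exact h j (by simp [e, hj]))
      fun j hj => by
        rw [updateRow_ne (by rintro rfl; exact hi hj)]; exact k j (by simp [hj])
    rw [← updateRow_eq_self A i, e, det_updateRow_add, Finset.card_insert_of_notMem hi, pow_succ]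
    linarith [abs_add_le (A.updateRow i u).det (A.updateRow i v).det, this u hu, this v hv]

lemma pick {n : ℕ} (T : Set (Fin n → ℤ)) (w : Fin n → ℤ) (i0 : Fin n) (hw : w ≠ 0)
    (h : ∀ y : Fin n → ℂ, (∀ v ∈ insert w T, (fun j => (v j : ℂ)) ⬝ᵥ y = 0) → y = 0) :
    ∃ A : Matrix (Fin n) (Fin n) ℤ, A i0 = w ∧ (∀ i ≠ i0, A i ∈ T) ∧ A.det ≠ 0 := by
  classical
  let c : (Fin n → ℤ) → Fin n → ℂ := fun v j => v j
  have ci : Function.Injective c := fun u v e => funext fun j => by
    simpa [c] using congrFun e j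
  have sp : ⊤ ≤ Submodule.span ℂ (c '' insert w T) := fun x _ => by
    by_contra hx
    obtain ⟨L, h1, h2⟩ := Submodule.exists_dual_map_eq_bot_of_notMem hx inferInstance
    have e : ∀ v, L v = v ⬝ᵥ fun j => L (Pi.single j 1) := fun v => by
      rw [LinearMap.pi_apply_eq_sum_univ]
      refine Finset.sum_congr rfl fun j _ => ?_
      rw [smul_eq_mul]; congr 2; ext k; simp [Pi.single_apply, eq_comm]
    have := h (fun j => L (Pi.single j 1)) fun v hv => (e _).symm.trans
      ((Submodule.eq_bot_iff _).1 h2 _ ⟨_, Submodule.subset_span ⟨v, hv, rfl⟩, rfl⟩)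
    exact h1 (by rw [e, this]; simp)
  have li : LinearIndepOn ℂ id {c w} := LinearIndepOn.singleton fun e => hw (ci (by
    rw [show c w = 0 from e]; ext; simp [c]))
  have hs : {c w} ⊆ c '' insert w T := by rintro _ rfl; exact ⟨w, by simp, rfl⟩
  let b := Module.Basis.extendLe li hs sp
  have := Module.Finite.finite_basis b
  have := Fintype.ofFinite (li.extend hs)
  let f0 : Fin n ≃ li.extend hs := (Fintype.equivFinOfCardEq (by
    rw [← Module.finrank_eq_card_basis b]; simp)).symm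
  let w' : li.extend hs := ⟨c w, li.subset_extend hs rfl⟩
  let f := (Equiv.swap i0 (f0.symm w')).trans f0
  have f1 : f i0 = w' := by simp [f]
  choose A h1 h2 using fun i => li.extend_subset hs (f i).2
  refine ⟨A, ci (by rw [h2, f1]), fun i hi => (h1 i).resolve_left fun e => hi (f.injective
    (Subtype.ext (by rw [← h2, e, f1]))), fun e => ?_⟩
  have := (linearIndependent_rows_iff_isUnit (A := (Int.castRingHom ℂ).mapMatrix A)).1 (by
    have : row ((Int.castRingHom ℂ).mapMatrix A) = b.reindex f.symm := by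
      ext i j
      simpa [b, c] using congrFun (h2 i) j
    rw [this]; exact Module.Basis.linearIndependent _)
  rw [isUnit_iff_isUnit_det, ← RingHom.map_det] at this
  simp [show det (A : Matrix _ _ ℤ) = 0 from e] at this

theorem uniq (n : ℕ) (S : Set (Fin n ⊕ Fin n × Fin n × Fin n)) (x : Fin n → ℂ)
    (hx : ∀ y, (∀ s ∈ S, Holds y s) ↔ y = x) (i : Fin n) :
    ∃ r : ℚ, x i = r ∧ |r.num| ≤ 2 ^ (n - 1) ∧ r.den ≤ 2 ^ (n - 1) := by
  have hs := (hx x).2 rfl
  by_cases h1 : ∃ i0, x i0 = 1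
  swap
  · have := (hx 0).1 (by
      rintro (j | ⟨j, k, l⟩) h
      · exact (h1 ⟨j, hs _ h⟩).elim
      · simp [Holds])
    exact ⟨0, by simp [← this], by simp, Nat.one_le_two_pow⟩
  obtain ⟨i0, h0⟩ := h1
  have es : ∀ (y : Fin n → ℂ) a, ∑ j, (e (some a) j : ℂ) * y j = y a := fun y a => by simp [e]
  have en : e (none : Option (Fin n)) = 0 := by ext; simp [e]
  obtain ⟨A, a1, a2, a3⟩ := pick {v | (∃ u w, Net u ∧ Net w ∧ v = u + w) ∧
    (fun j => (v j : ℂ)) ⬝ᵥ x = 0} (e (some i0)) i0 (fun h => by simpa [e] using congrFun h i0)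
    fun y hy => by
      have y0 : y i0 = 0 := by simpa [dotProduct, es] using hy _ (.inl rfl)
      have := (hx (x + y)).1 (by
        rintro (j | ⟨j, k, l⟩) h
        · have h2 : x j = 1 := hs _ h
          have := hy (e (some j) - e (some i0) + (e none - e none)) (.inr ⟨⟨_, _, ⟨_, _, rfl⟩,
            ⟨_, _, rfl⟩, rfl⟩, by simp [dotProduct, sub_mul, es, h0, h2]⟩)
          simpa [Holds, dotProduct, sub_mul, es, h2, y0] using this
        · have h2 : x j + x k = x l := hs _ h
          have := hy (e (some j) - e (some l) + (e (some k) - e none)) (.inr ⟨⟨_, _, ⟨_, _, rfl⟩,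
            ⟨_, _, rfl⟩, rfl⟩, by
              simp [dotProduct, sub_mul, add_mul, Finset.sum_add_distrib, es, en, ← h2]⟩)
          simp [dotProduct, sub_mul, add_mul, Finset.sum_add_distrib, es, en] at this
          show x j + y j + (x k + y k) = x l + y l
          linear_combination h2 + this)
      simpa using this
  have bd : ∀ j, |(A.updateRow i0 (e (some j))).det| ≤ 2 ^ (n - 1) := fun j => by
    simpa [Finset.card_erase_of_mem] using two (Finset.univ.erase i0) (A.updateRow i0 (e (some j)))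
      (fun k hk => by
        obtain rfl : k = i0 := by simpa using hk
        exact ⟨some j, none, by simp [en]⟩)
      fun k hk => by
        have : k ≠ i0 := by simpa using hk
        rw [updateRow_ne this]; exact (a2 k this).1
  have b1 := bd i0
  rw [← a1, updateRow_eq_self] at b1
  have m : (Int.castRingHom ℂ).mapMatrix A *ᵥ x = Pi.single i0 1 := funext fun k => by
    by_cases hk : k = i0
    · simp [hk, mulVec, dotProduct, a1, es, h0]
    · simpa [hk, mulVec] using (a2 k hk).2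
  have m2 := congrFun (congrArg ((Int.castRingHom ℂ).mapMatrix A.adjugate *ᵥ ·) m) i
  simp only [mulVec_mulVec, ← map_mul, adjugate_mul] at m2
  have e1 : Pi.single i 1 = e (some i) := by ext j; simp [e, Pi.single_apply, eq_comm]
  have m3 : (A.det : ℂ) * x i = (A.updateRow i0 (e (some i))).det := by
    rw [← e1, ← adjugate_apply]
    simpa [smul_eq_diagonal_mul, mulVec_diagonal] using m2
  have b2 := bd i
  generalize (A.updateRow i0 (e (some i))).det = p at m3 b2
  generalize A.det = q at *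
  refine ⟨p / q, by push_cast; rw [eq_div_iff (by simpa), mul_comm, m3], ?_, ?_⟩
  · by_cases hp : p = 0
    · simp [hp]
    rw [← Rat.divInt_eq_div]
    exact (Int.le_of_dvd (abs_pos.2 hp) (by simpa using Rat.num_dvd p a3)).trans b2
  · rw [← Rat.divInt_eq_div]
    have : ((Rat.divInt p q).den : ℤ) ≤ 2 ^ (n - 1) :=
      (Int.le_of_dvd (abs_pos.2 a3) (by simpa using Rat.den_dvd p q)).trans b1
    exact_mod_cast this

lemma bound {n : ℕ} (x : Fin n → ℝ) (h : ∀ d : Fin n → ℝ, (∀ i, x i = 1 → d i = 0) →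
    (∀ i j k, x i + x j = x k → d i + d j = d k) → d = 0) (j : Fin n) : |x j| ≤ 2 ^ (n - 1) := by
  obtain ⟨r, h1, h2, -⟩ := uniq n {s | Holds (fun i => (x i : ℂ)) s} (fun i => (x i : ℂ))
    (fun y => ⟨fun hy => by
      have p1 : ∀ i, x i = 1 → y i = 1 := fun i hi => hy (.inl i) (by simp [Holds, hi])
      have p2 : ∀ i j k, x i + x j = x k → y i + y j = y k := fun i j k hi =>
        hy (.inr (i, j, k)) (by simp [Holds, ← hi])
      have a := h (fun i => (y i).re - x i) (fun i hi => by simp [p1 i hi, hi])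
        fun i j k hi => by simp [← p2 i j k hi, ← hi]; ring
      have b := h (fun i => (y i).im) (fun i hi => by simp [p1 i hi])
        fun i j k hi => by simp [← p2 i j k hi]
      ext i
      apply Complex.ext
      · simpa [sub_eq_zero] using congrFun a i
      · simpa using congrFun b i, by rintro rfl s hs; exact hs⟩) j
  have h3 : x j = r := by exact_mod_cast h1
  have h4 : |r| ≤ |(r.num : ℚ)| := by
    have d : (1 : ℚ) ≤ r.den := by exact_mod_cast r.pos
    rw [← Rat.mul_den_eq_num, abs_mul, abs_of_nonneg (le_trans zero_le_one d)]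
    exact le_mul_of_one_le_right (abs_nonneg _) d
  have h5 : |r| ≤ 2 ^ (n - 1) := h4.trans (by exact_mod_cast h2)
  rw [h3]
  exact_mod_cast h5

lemma vertex {n : ℕ} {K : Type} [Fintype K] (a : K → Fin n → ℝ) (β : K → ℝ) (x0 c : Fin n → ℝ)
    (hr : ∀ d : Fin n → ℝ, (∀ k, 0 ≤ (a k ⬝ᵥ x0 - β k) * (a k ⬝ᵥ d)) →
      (∀ k, a k ⬝ᵥ x0 = β k → a k ⬝ᵥ d = 0) → d = 0) :
    ∃ x, c ⬝ᵥ x0 ≤ c ⬝ᵥ x ∧ ∀ d : Fin n → ℝ, (∀ k, a k ⬝ᵥ x = β k → a k ⬝ᵥ d = 0) → d = 0 := by
  classical
  let G : Finset K → Prop := fun s => ∃ x, c ⬝ᵥ x0 ≤ c ⬝ᵥ x ∧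
    (∀ k, 0 ≤ (a k ⬝ᵥ x0 - β k) * (a k ⬝ᵥ x - β k)) ∧ (∀ k, a k ⬝ᵥ x0 = β k → a k ⬝ᵥ x = β k) ∧
    ∀ k, k ∈ s ↔ a k ⬝ᵥ x = β k
  have g0 : G (Finset.univ.filter fun k => a k ⬝ᵥ x0 = β k) :=
    ⟨x0, le_rfl, fun k => mul_self_nonneg _, fun _ h => h, by simp⟩
  obtain ⟨s, hs, hmax⟩ := (Finset.univ.filter G).exists_max_image Finset.card ⟨_, by simpa using g0⟩
  obtain ⟨x, x1, x2, x3, x4⟩ : G s := by simpa using hs
  have key : ∀ d : Fin n → ℝ, 0 ≤ c ⬝ᵥ d → (∀ k, a k ⬝ᵥ x = β k → a k ⬝ᵥ d = 0) → d = 0 := by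
    intro d hc hd
    refine hr d (fun k0 => ?_) fun k hk => hd k (x3 k hk)
    by_contra hk0
    obtain ⟨k, hk, hmin⟩ := (Finset.univ.filter fun k => (a k ⬝ᵥ x0 - β k) * (a k ⬝ᵥ d) < 0
      ).exists_min_image (fun k => (a k ⬝ᵥ x0 - β k) * (a k ⬝ᵥ x - β k) /
        (-((a k ⬝ᵥ x0 - β k) * (a k ⬝ᵥ d)))) ⟨k0, by simpa using hk0⟩
    simp only [Finset.mem_filter, Finset.mem_univ, true_and] at hk hmin
    set t := (a k ⬝ᵥ x0 - β k) * (a k ⬝ᵥ x - β k) / (-((a k ⬝ᵥ x0 - β k) * (a k ⬝ᵥ d))) with ht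
    have t0 : 0 ≤ t := div_nonneg (x2 k) (by linarith)
    have ex : ∀ v : Fin n → ℝ, v ⬝ᵥ (x + t • d) = v ⬝ᵥ x + t * (v ⬝ᵥ d) := fun v => by simp
    have n1 : a k ⬝ᵥ x0 - β k ≠ 0 := fun h => by simp [h] at hk
    have n2 : a k ⬝ᵥ d ≠ 0 := fun h => by simp [h] at hk
    have := hmax (Finset.univ.filter fun k => a k ⬝ᵥ (x + t • d) = β k) (by
      simp only [Finset.mem_filter, Finset.mem_univ, true_and]
      refine ⟨x + t • d, by rw [ex]; nlinarith [mul_nonneg t0 hc], fun l => ?_, fun l hl => ?_,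
        by simp⟩
      · rw [ex]
        by_cases h : (a l ⬝ᵥ x0 - β l) * (a l ⬝ᵥ d) < 0
        · have := hmin l h
          rw [le_div_iff₀ (by linarith)] at this
          linarith
        · nlinarith [mul_nonneg t0 (not_lt.1 h), x2 l]
      · rw [ex, hd l (x3 l hl), x3 l hl]; simp)
    have sub : insert k s ⊆ Finset.univ.filter fun k => a k ⬝ᵥ (x + t • d) = β k := by
      intro l hl
      simp only [Finset.mem_filter, Finset.mem_univ, true_and, ex]
      rcases Finset.mem_insert.1 hl with rfl | hl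
      · rw [ht]; field_simp; ring
      · rw [hd l ((x4 l).1 hl), (x4 l).1 hl]; simp
    have c2 := Finset.card_le_card sub
    rw [Finset.card_insert_of_notMem fun h => n2 (hd k ((x4 k).1 h))] at c2
    omega
  refine ⟨x, x1, fun d hd => ?_⟩
  rcases le_total 0 (c ⬝ᵥ d) with h | h
  · exact key d h hd
  · simpa using key (-d) (by simpa) fun k hk => by simp [hd k hk]

theorem result (n : ℕ) (S : Finset (Eqn n)) (P : Matrix (Fin n) S ℝ)
    (hP : IsPinv (Matrix.of fun (s : S) (j : Fin n) => rowOf s.1 j) P) (j : Fin n) :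
    |(P *ᵥ fun s : S => rhsOf s.1) j| ≤ 2 ^ (n - 1) := by
  classical
  set A : Matrix S (Fin n) ℝ := Matrix.of fun (s : S) (j : Fin n) => rowOf s.1 j with hA
  set b : S → ℝ := fun s : S => rhsOf s.1 with hb
  set x0 := P *ᵥ b with hx0
  obtain ⟨p1, p2, p3, p4⟩ := hP
  have q1 : ∀ d, (A *ᵥ x0 - b) ⬝ᵥ (A *ᵥ d) = 0 := fun d => by
    have : A *ᵥ x0 ⬝ᵥ A *ᵥ d = b ⬝ᵥ A *ᵥ d := by
      rw [hx0, mulVec_mulVec, ← p3, mulVec_transpose, ← dotProduct_mulVec, mulVec_mulVec, p1]
    rw [sub_dotProduct, this, sub_self]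
  have q2 : ∀ d, A *ᵥ d = 0 → x0 ⬝ᵥ d = 0 := fun d hd => by
    rw [hx0, ← p2, ← mulVec_mulVec, ← p4, mulVec_transpose, ← dotProduct_mulVec, ← mulVec_mulVec,
      hd]
    simp
  have main : ∀ c : Fin n → ℝ, ∃ x : Fin n → ℝ, c ⬝ᵥ x0 ≤ c ⬝ᵥ x ∧ |x j| ≤ 2 ^ (n - 1) := by
    intro c
    obtain ⟨x, h1, h2⟩ := vertex (K := S ⊕ Fin n) (Sum.elim A fun i => Pi.single i 1)
      (Sum.elim b 0) x0 c fun d d1 d2 => by
        have r1 : A *ᵥ d = 0 := by
          have := (Finset.sum_eq_zero_iff_of_nonneg fun s _ => d1 (.inl s)).1 (q1 d)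
          ext s
          rcases mul_eq_zero.1 (this s (Finset.mem_univ _)) with h | h
          · exact d2 (.inl s) (sub_eq_zero.1 h)
          · exact h
        have r2 : ∀ i, 0 ≤ x0 i * d i := fun i => by simpa using d1 (.inr i)
        have := (Finset.sum_eq_zero_iff_of_nonneg fun i _ => r2 i).1 (q2 d r1)
        ext i
        rcases mul_eq_zero.1 (this i (Finset.mem_univ _)) with h | h
        · simpa using d2 (.inr i) (by simpa)
        · exact h
    refine ⟨x, h1, bound x (fun d d1 d2 => h2 d ?_) j⟩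
    rintro (⟨i | ⟨i, k, l⟩, hs⟩ | i) h
    · have h' : rowOf (.inl i) ⬝ᵥ x = 1 := h
      have : x i = 1 := by simpa [rowOf] using h'
      show rowOf (.inl i) ⬝ᵥ d = 0
      simp [rowOf, d1 i this]
    · have h' : rowOf (.inr (i, k, l)) ⬝ᵥ x = 0 := h
      show rowOf (.inr (i, k, l)) ⬝ᵥ d = 0
      simp only [rowOf, sub_dotProduct, add_dotProduct, single_dotProduct, one_mul] at h' ⊢
      rw [d2 i k l (by linarith), sub_self]
    · have : x i = 0 := by simpa using h
      have := d2 i i i (by simp [this])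
      simpa using this
  obtain ⟨x, h1, h2⟩ := main (Pi.single j 1)
  obtain ⟨y, h3, h4⟩ := main (-Pi.single j 1)
  simp only [neg_dotProduct, single_dotProduct, one_mul] at h1 h3
  rw [abs_le] at *
  constructor <;> linarith [h2.2, h4.1]

end Pool.Agent.Results.MP_b60f31_al.Yes
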